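import Pool.Agent.D0H73.MK.Basic

/-! BND: a skeleton contains a bounded skeleton. -/

set_option autoImplicit false

open Set Topology Filter

namespace Pool.Agent.D0H18.MK

open Pool.Agent.D0H73.MK

universe u

theorem t_BND : S_BND.{u} := by
  intro 𝕜 _ X _ _ Γ _ P h
  have key : ∃ (s0 : Γ) (n : ℕ), ∀ t, s0 ≤ t → ∃ v, t ≤ v ∧ ‖P v‖ ≤ n := by
    by_contra hcon
    push Not at hcon
    choose g hg1 hg2 using hcon
    obtain ⟨s⟩ := h.nonempty
    let f : ℕ → Γ := fun n => Nat.rec (g s 0) (fun k t => g t (k + 1)) n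
    have hf0 : ∀ n, f (n + 1) = g (f n) (n + 1) := fun _ => rfl
    have hf : Monotone f := monotone_nat_of_le_succ fun n => by
      rw [hf0]
      exact hg1 _ _
    obtain ⟨t, ht⟩ := h.exists_sup f hf
    obtain ⟨n, hn⟩ := exists_nat_ge ‖P t‖
    have h1 : ((n + 1 : ℕ) : ℝ) < ‖P t‖ := by
      refine hg2 (f n) (n + 1) t ?_
      rw [← hf0]
      exact ht.1 ⟨n + 1, rfl⟩
    push_cast at h1
    linarith
  obtain ⟨s0, n, hs⟩ := key
  have hclosed : ∀ f : ℕ → Γ, Monotone f → (∀ k, f k ∈ {v | s0 ≤ v ∧ ‖P v‖ ≤ n}) →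
      ∀ t, IsLUB (range f) t → t ∈ {v | s0 ≤ v ∧ ‖P v‖ ≤ n} := by
    intro f hf hfS t ht
    refine ⟨(hfS 0).1.trans (ht.1 ⟨0, rfl⟩), ?_⟩
    refine ContinuousLinearMap.opNorm_le_bound _ (Nat.cast_nonneg n) fun x => ?_
    have h1 := (h.tendsto (r := n) f hf (fun k => (hfS k).2) t ht x).norm
    refine le_of_tendsto h1 (Eventually.of_forall fun k => ?_)
    exact ((P (f k)).le_opNorm x).trans (mul_le_mul_of_nonneg_right (hfS k).2 (norm_nonneg x))
  refine ⟨{v | s0 ≤ v ∧ ‖P v‖ ≤ n}, n, ?_⟩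
  refine { nonempty := ?_, directed := ?_, exists_sup := ?_, proj := ?_, separable := ?_, comm := ?_,
           sup := ?_, union := ?_, bdd := ?_ }
  · obtain ⟨v, hv1, hv2⟩ := hs s0 le_rfl
    exact ⟨⟨v, hv1, hv2⟩⟩
  · intro s t
    obtain ⟨v, hv1, hv2⟩ := h.directed s t
    obtain ⟨w, hw1, hw2⟩ := hs v (s.2.1.trans hv1)
    exact ⟨⟨w, s.2.1.trans (hv1.trans hw1), hw2⟩, hv1.trans hw1, hv2.trans hw1⟩
  · exact h.exists_lub_coe _ hclosed
  · exact fun s x => h.proj s x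
  · exact fun s => h.separable s
  · exact fun s t hst x => h.comm s t hst x
  · intro f hf t ht
    exact h.sup (fun k => (f k : Γ)) (fun a b hab => hf hab) t (h.isLUB_coe _ hclosed f hf t ht)
  · intro x
    obtain ⟨s, hx⟩ := h.union x
    obtain ⟨v, hv1, hv2⟩ := h.directed s0 s
    obtain ⟨w, hw1, hw2⟩ := hs v hv1
    exact ⟨⟨w, hv1.trans hw1, hw2⟩, h.range_mono (hv2.trans hw1) hx⟩
  · exact fun s => s.2.2

end Pool.Agent.D0H18.MK
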