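import Pool.Agent.D0H73.MK.Basic

/-! RESTR: a set of indices gives a skeleton on a closed subspace. -/

set_option autoImplicit false

open Set Topology Filter

namespace Pool.Agent.D0H18.MK

open Pool.Agent.D0H73.MK

universe u v

/-- the supremum condition from pointwise convergence -/
theorem sup_of_tendsto {𝕜 : Type} [RCLike 𝕜] {Y : Type u} [NormedAddCommGroup Y] [NormedSpace 𝕜 Y]
    {Γ : Type v} [PartialOrder Γ] {Q : Γ → Y →L[𝕜] Y}
    (hcomm : ∀ s t, s ≤ t → ∀ x, Q t (Q s x) = Q s x) (f : ℕ → Γ) (t : Γ) (ht : IsLUB (range f) t)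
    (hlim : ∀ x, Tendsto (fun n => Q (f n) x) atTop (𝓝 (Q t x))) :
    range (Q t) = closure (⋃ n, range (Q (f n))) := by
  apply Subset.antisymm
  · rintro _ ⟨y, rfl⟩
    refine mem_closure_of_tendsto (hlim y) (Eventually.of_forall fun n => ?_)
    exact mem_iUnion.2 ⟨n, y, rfl⟩
  · have hc : IsClosed {y : Y | Q t y = y} := isClosed_eq (Q t).continuous continuous_id
    have h1 : closure (⋃ n, range (Q (f n))) ⊆ {y : Y | Q t y = y} := by
      refine closure_minimal ?_ hc
      refine iUnion_subset fun n => ?_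
      rintro _ ⟨y, rfl⟩
      exact hcomm _ _ (ht.1 ⟨n, rfl⟩) y
    intro y hy
    exact ⟨y, h1 hy⟩

theorem t_RESTR : S_RESTR.{u} := by
  intro 𝕜 _ X _ _ Γ _ P r h S W hS
  let P' : S → W →L[𝕜] W := fun s =>
    ((P s).comp W.subtypeL).codRestrict W (fun w => hS.maps s s.2 w w.2)
  have hP' : ∀ s w, ((P' s w : W) : X) = P s w := fun _ _ => rfl
  have hcomm : ∀ s t : S, s ≤ t → ∀ x, P' s (P' t x) = P' s x ∧ P' t (P' s x) = P' s x := by
    intro s t hst x
    have h1 := h.comm s t hst x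
    exact ⟨Subtype.ext h1.1, Subtype.ext h1.2⟩
  have hproj : ∀ (s : S) x, P' s (P' s x) = P' s x := fun s x => Subtype.ext (h.proj s x)
  refine ⟨P', ?_, hP'⟩
  refine { nonempty := ?_, directed := ?_, exists_sup := ?_, proj := hproj, separable := ?_, comm := hcomm,
           sup := ?_, union := ?_, bdd := ?_ }
  · obtain ⟨s, hs⟩ := hS.dir.1
    exact ⟨⟨s, hs⟩⟩
  · intro s t
    obtain ⟨v, hv, h1, h2⟩ := hS.dir.2 s s.2 t t.2
    exact ⟨⟨v, hv⟩, h1, h2⟩
  · exact h.toIsSkel.exists_lub_coe S hS.closed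
  · intro s
    have h1 : TopologicalSpace.IsSeparable ((fun w : W => (w : X)) ⁻¹' range (P s)) :=
      Topology.IsInducing.subtypeVal.isSeparable_preimage (h.separable s)
    refine h1.mono ?_
    rintro _ ⟨w, rfl⟩
    exact ⟨w, rfl⟩
  · intro f hf t ht
    refine sup_of_tendsto (fun s t hst x => (hcomm s t hst x).2) f t ht fun x => ?_
    rw [tendsto_subtype_rng]
    exact h.tendsto (fun n => (f n : Γ)) (fun a b hab => hf hab) t
      (h.toIsSkel.isLUB_coe S hS.closed f hf t ht) x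
  · intro x
    obtain ⟨s, hs, h1⟩ := hS.union x x.2
    exact ⟨⟨s, hs⟩, x, Subtype.ext h1⟩
  · intro s
    refine ContinuousLinearMap.opNorm_le_bound _ h.r_nonneg fun w => ?_
    exact h.norm_le s w

end Pool.Agent.D0H18.MK
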